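import Pool.Agent.H.MP_d643ae_pr.A

set_option autoImplicit false
open MeasureTheory

namespace Pool.Agent.Results.MP_d643ae_pr.NonNormal

open Pool.Agent.H.MP_d643ae_pr in
theorem result : ∃ (f g : ℝ → ℝ) (n : ℕ) (c : ℝ), 3 ≤ n ∧
    (Continuous f ∧ (∀ x, 0 < f x) ∧ Integrable f ∧ ∫ x, f x = 1) ∧
    ((∀ x, 0 < g x) ∧ Integrable g ∧ ∫ x, g x = 1) ∧
    (∀ x : Fin n → ℝ, ∑ j, x j = 0 →
      Integrable (fun u => (u - c) * g u * ∏ j, f (x j - u)) ∧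
        ∫ u, (u - c) * g u * ∏ j, f (x j - u) = 0) ∧
    ¬ ∃ a σ : ℝ, 0 < σ ∧ f =ᵐ[volume] fun x =>
      (√(2 * Real.pi * σ ^ 2))⁻¹ * Real.exp (-(x - a) ^ 2 / (2 * σ ^ 2)) := by
  have p : ∀ f : ℝ → ℝ, (∀ x, 0 < f x) → Integrable f → 0 < ∫ x, f x := fun f h i => by
    rw [integral_pos_iff_support_of_nonneg (fun x => (h x).le) i,
      Set.eq_univ_of_forall (s := Function.support f) fun x => (h x).ne']
    simp
  have pf := p _ f0_pos f0_i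
  have pg := p _ g0_pos g0_i
  refine ⟨fun x => (∫ x, f0 x)⁻¹ * f0 x, fun x => (∫ x, g0 x)⁻¹ * g0 x, 3, 0, le_rfl,
    ⟨continuous_const.mul f0_c, fun x => mul_pos (inv_pos.mpr pf) (f0_pos x), f0_i.const_mul _, ?_⟩,
    ⟨fun x => mul_pos (inv_pos.mpr pg) (g0_pos x), g0_i.const_mul _, ?_⟩, fun x hx => ?_,
    fun ⟨a, σ, _, h⟩ => notn (inv_pos.mpr pf) h⟩
  · rw [integral_const_mul, inv_mul_cancel₀ pf.ne']
  · rw [integral_const_mul, inv_mul_cancel₀ pg.ne']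
  · have e : ∀ u, (u - 0) * ((∫ x, g0 x)⁻¹ * g0 u) * ∏ j, (∫ x, f0 x)⁻¹ * f0 (x j - u) =
        (∫ x, g0 x)⁻¹ * (∫ x, f0 x)⁻¹ ^ 3 * (u * g0 u * ∏ j, f0 (x j - u)) := fun u => by
      simp only [Fin.prod_univ_three]; ring
    simp only [e]
    exact ⟨(int0 x).const_mul _, by rw [integral_const_mul, zero x hx, mul_zero]⟩

end Pool.Agent.Results.MP_d643ae_pr.NonNormal
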